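import Mathlib
import Pool.Agent.V5helper5.AB.Orbit
import Pool.Agent.V5helper5.AB.Chain3

set_option autoImplicit false

namespace Pool.Agent.V5helper5.CO

open Finset Filter
open Pool.Agent.V5helper5.AB

lemma odd_many {x : ℤ} (hx : 0 < x) (L : ℕ) : ((L : ℝ) - Real.logb 2 x) / 2 ≤
    (((range L).filter fun t => (T 3 1)^[t] x % 2 ≠ 0).card : ℝ) := by
  have hpos := pos_iter x hx
  have h := odd_count (α := 3) (β := 1) (g := 3) (by norm_num) (by norm_num) (by norm_num)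
    (by norm_num) x L (fun j _ => (hpos j).ne')
  rw [od_filter] at h
  set o := ((range L).filter fun t => (T 3 1)^[t] x % 2 ≠ 0).card with ho
  have h1 : 1 ≤ |(T 3 1)^[L] x| := Int.one_le_abs (hpos L).ne'
  have h2 : (2 : ℤ) ^ L ≤ 4 ^ o * x := by
    have h3 : (2 : ℤ) ^ L ≤ 2 ^ L * |(T 3 1)^[L] x| := by
      have : (0 : ℤ) < 2 ^ L := by positivity
      nlinarith
    rw [abs_of_pos hx] at h
    have e : (3 : ℤ) + |1| = 4 := by norm_num
    rw [e] at h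
    exact h3.trans h
  have h3 : (2 : ℝ) ^ L ≤ 4 ^ o * x := by exact_mod_cast h2
  have hxR : (0 : ℝ) < x := by exact_mod_cast hx
  have h4 := Real.logb_le_logb_of_le (b := 2) (by norm_num) (by positivity) h3
  rw [Real.logb_mul (by positivity) hxR.ne', Real.logb_pow, Real.logb_pow] at h4
  have e1 : Real.logb 2 2 = 1 := Real.logb_self_eq_one (by norm_num)
  have e2 : Real.logb 2 4 = 2 := by
    rw [show (4 : ℝ) = 2 ^ (2 : ℕ) by norm_num, Real.logb_pow, e1]; norm_num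
  rw [e1, e2] at h4
  linarith

/-- `x` is small compared with `exp (exp (L ^ ε))` -/
lemma small_start {ε : ℝ} (hε : 0 < ε) : ∃ L0 : ℕ, ∀ (x : ℤ) (L : ℕ), 0 < x → L0 ≤ L →
    Real.logb 2 x ≤ L → |(x : ℝ)| ≤ Real.exp (Real.exp ((L : ℝ) ^ ε)) := by
  have h1 : ∀ᶠ L : ℕ in atTop, (L : ℝ) ≤ Real.exp ((L : ℝ) ^ ε) := by
    have h2 : Tendsto (fun L : ℕ => (L : ℝ) ^ ε) atTop atTop :=
      (tendsto_rpow_atTop hε).comp tendsto_natCast_atTop_atTop
    have h3 := (isLittleO_log_rpow_atTop hε).comp_tendsto tendsto_natCast_atTop_atTop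
    have h4 := h3.bound (show (0 : ℝ) < 1 by norm_num)
    filter_upwards [h4, eventually_ge_atTop 1] with L hL hL1
    have hLR : (1 : ℝ) ≤ L := by exact_mod_cast hL1
    simp only [Function.comp_apply, Real.norm_eq_abs] at hL
    rw [abs_of_nonneg (Real.log_nonneg hLR), abs_of_nonneg (by positivity), one_mul] at hL
    rw [← Real.log_le_iff_le_exp (by linarith)]
    exact hL
  obtain ⟨L0, hL0⟩ := eventually_atTop.1 h1
  refine ⟨L0, fun x L hx hL hlog => ?_⟩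
  have hxR : (0 : ℝ) < x := by exact_mod_cast hx
  rw [abs_of_pos hxR, ← Real.log_le_iff_le_exp hxR]
  have h2 : Real.log x ≤ L := by
    have h3 : Real.logb 2 x * Real.log 2 = Real.log x := by
      rw [Real.logb, div_mul_cancel₀]
      exact (Real.log_pos (by norm_num)).ne'
    have h4 : Real.log 2 < 1 := by
      have := Real.log_two_lt_d9
      linarith
    have h5 : 0 < Real.log 2 := Real.log_pos (by norm_num)
    have h6 : (0 : ℝ) ≤ L := Nat.cast_nonneg _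
    have h7 : Real.logb 2 x * Real.log 2 ≤ L * Real.log 2 := mul_le_mul_of_nonneg_right hlog h5.le
    nlinarith
  exact h2.trans (hL0 L hL)

theorem sq_long (r : ℕ) (hr : r = 2 ∨ r = 3) {c η : ℝ} (hc : r * c < 1) (hη : 0 < η) :
    ∃ L0 : ℕ, ∀ (x : ℤ) (L : ℕ), 0 < x → L0 ≤ L → (1 + η) * Real.logb 2 x ≤ L →
      Set.InjOn (fun i => (T 3 1)^[i] x) (range L : Finset ℕ) →
      ∀ m : ℕ, 5 ≤ m + r → 2 ≤ m → ∀ Q : Finset ℤ, (Q.card : ℝ) ≤ (L : ℝ) ^ c →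
        ∃ t : ℕ, t < L ∧ (T 3 1)^[t] x % 2 = 1 ∧ ∀ s ∈ Q, ∀ a : ℤ, (T 3 1)^[t] x ≠ s * a ^ m := by
  have hr0 : (2 : ℝ) ≤ r := by rcases hr with h | h <;> rw [h] <;> norm_num
  have hc1 : max c 0 < 1 / r := by
    rw [lt_div_iff₀ (by linarith)]
    rcases max_cases c 0 with h | h
    · rw [h.1]; linarith
    · rw [h.1]; linarith
  set d : ℝ := (1 / r - max c 0) / 2 with hd
  have hd0 : 0 < d := by rw [hd]; linarith
  have hcd : r * (max c 0 + d) < 1 := by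
    have h1 : max c 0 + d < 1 / r := by rw [hd]; linarith
    rw [lt_div_iff₀ (by linarith)] at h1; linarith
  obtain ⟨C, ε, hC0, hε0, hC⟩ := near_traj (α := 3) (by norm_num) (g := 3) (by norm_num) le_rfl r hr
    (c := max c 0) (d := d) (le_max_right _ _) hd0.le hcd
  obtain ⟨N1, hN1⟩ := small_start hε0
  have t3 : Tendsto (fun p : ℕ => Real.log (p : ℝ)) atTop atTop :=
    Real.tendsto_log_atTop.comp tendsto_natCast_atTop_atTop
  obtain ⟨N2, hN2⟩ := eventually_atTop.1 (t3.eventually_gt_atTop (2 * (1 + η) * C / η))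
  refine ⟨N1 + N2 + 2, ?_⟩
  intro x L hx hL hlog hinj m hmr hm Q hQ
  by_contra hcon
  push Not at hcon
  have hL2 : 2 ≤ L := by omega
  have hLR : (2 : ℝ) ≤ L := by exact_mod_cast hL2
  have hxR : (1 : ℝ) ≤ x := by exact_mod_cast hx
  have hlx0 : 0 ≤ Real.logb 2 x := Real.logb_nonneg (by norm_num) hxR
  have hlog1 : Real.logb 2 x ≤ L := by nlinarith
  have hQ' : (Q.card : ℝ) ≤ (L : ℝ) ^ (max c 0) :=
    hQ.trans (Real.rpow_le_rpow_of_exponent_le (by linarith) (le_max_left _ _))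
  have h1 := hC 1 (by norm_num) m hmr hm x L hL2 (by
      rw [Int.cast_one, abs_one]
      exact Real.one_le_rpow (by linarith) hd0.le) (hN1 x L hx (by omega) hlog1) hinj Q hQ'
    ((range L).filter fun t => (T 3 1)^[t] x % 2 ≠ 0) (Finset.filter_subset _ _) (by
      intro t ht
      rw [Finset.mem_filter, Finset.mem_range] at ht
      have hodd : (T 3 1)^[t] x % 2 = 1 := by have := ht.2; omega
      obtain ⟨s, hs, a, ha⟩ := hcon t ht.1 hodd
      refine ⟨s, hs, a, by rw [← ha]; exact hodd, ?_⟩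
      have : (((T 3 1)^[t] x : ℤ) : ℝ) = s * a ^ m := by rw [ha]; push_cast; rfl
      rw [this, sub_self, abs_zero]
      exact Real.rpow_nonneg (by linarith) _)
  have h2 := odd_many hx L
  have h3 := hN2 L (by omega)
  have hl0 : 0 < Real.log (L : ℝ) := Real.log_pos (by linarith)
  have h4 : η / (2 * (1 + η)) * L ≤ ((L : ℝ) - Real.logb 2 x) / 2 := by
    have h5 : Real.logb 2 x ≤ L / (1 + η) := by
      rw [le_div_iff₀ (by linarith)]; linarith
    have h6 : η / (2 * (1 + η)) * L = (L - L / (1 + η)) / 2 := by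
      field_simp; ring
    rw [h6]; linarith
  have h5 : η / (2 * (1 + η)) * L ≤ C * (L / Real.log L) := h4.trans (h2.trans h1)
  have h6 : C * (L / Real.log L) = (C / Real.log L) * L := by ring
  rw [h6] at h5
  have h7 : η / (2 * (1 + η)) ≤ C / Real.log L := le_of_mul_le_mul_right h5 (by linarith)
  rw [div_le_div_iff₀ (by linarith) hl0] at h7
  rw [div_lt_iff₀ hη] at h3
  linarith

theorem sq_bound (r : ℕ) (hr : r = 2 ∨ r = 3) {ε : ℝ} (hε : 0 < ε) :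
    ∃ C : ℝ, 0 < C ∧ ∀ (x : ℤ) (L : ℕ), 0 < x →
      Set.InjOn (fun i => (T 3 1)^[i] x) (range L : Finset ℕ) →
      ∀ m : ℕ, 5 ≤ m + r → 2 ≤ m → ∀ Q : Finset ℤ,
        (∀ t : ℕ, t < L → (T 3 1)^[t] x % 2 = 1 → ∃ s ∈ Q, ∃ a : ℤ, (T 3 1)^[t] x = s * a ^ m) →
        (L : ℝ) ≤ (1 + ε) * Real.logb 2 x + C * (1 + Q.card : ℝ) ^ ((r : ℝ) + ε) := by
  have hr0 : (2 : ℝ) ≤ r := by rcases hr with h | h <;> rw [h] <;> norm_num
  set c : ℝ := 1 / (r + ε) with hc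
  have hrc : r * c < 1 := by
    rw [hc, mul_one_div, div_lt_one (by linarith)]; linarith
  obtain ⟨L0, hL0⟩ := sq_long r hr hrc hε
  refine ⟨L0 + 1, by positivity, ?_⟩
  intro x L hx hinj m hmr hm Q h
  by_contra hcon
  push Not at hcon
  have hxR : (1 : ℝ) ≤ x := by exact_mod_cast hx
  have hlx0 : 0 ≤ Real.logb 2 x := Real.logb_nonneg (by norm_num) hxR
  have hq : (1 : ℝ) ≤ 1 + Q.card := by
    have : (0 : ℝ) ≤ Q.card := Nat.cast_nonneg _
    linarith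
  have h1 : (1 : ℝ) ≤ (1 + Q.card : ℝ) ^ ((r : ℝ) + ε) := Real.one_le_rpow hq (by linarith)
  have h2 : 0 ≤ (1 + ε) * Real.logb 2 x := by positivity
  have hL0' : (0 : ℝ) ≤ L0 := Nat.cast_nonneg _
  have h3 : (L0 : ℝ) + 1 ≤ (L0 + 1) * (1 + Q.card : ℝ) ^ ((r : ℝ) + ε) := by nlinarith
  have h4 : (L0 : ℝ) ≤ L := by linarith
  have h5 : (1 + ε) * Real.logb 2 x ≤ L := by linarith
  have h6 : (1 + Q.card : ℝ) ^ ((r : ℝ) + ε) ≤ L := by nlinarith
  have h7 : (Q.card : ℝ) ≤ (L : ℝ) ^ c := by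
    have h8 : ((1 + Q.card : ℝ) ^ ((r : ℝ) + ε)) ^ c = 1 + Q.card := by
      rw [← Real.rpow_mul (by linarith), hc, mul_one_div_cancel (by linarith), Real.rpow_one]
    have h9 : ((1 + Q.card : ℝ) ^ ((r : ℝ) + ε)) ^ c ≤ (L : ℝ) ^ c :=
      Real.rpow_le_rpow (by linarith) h6 (by rw [hc]; positivity)
    rw [h8] at h9
    linarith
  obtain ⟨t, ht, hodd, hne⟩ := hL0 x L hx (by exact_mod_cast h4) h5 hinj m hmr hm Q h7
  obtain ⟨s, hs, a, ha⟩ := h t ht hodd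
  exact hne s hs a ha

theorem sp_long (r : ℕ) (hr : r = 2 ∨ r = 3) {c δ : ℝ} (hc0 : 0 ≤ c) (hδ0 : 0 ≤ δ)
    (h1 : r * c < 1) (h2 : c + (r - 1 : ℕ) * δ < 1) :
    ∃ C : ℝ, 0 < C ∧ ∀ (x : ℤ) (L : ℕ), 0 < x → 2 ≤ L → Real.logb 2 x ≤ L →
      Set.InjOn (fun i => (T 3 1)^[i] x) (range L : Finset ℕ) →
      ∀ m : ℕ, 5 ≤ m + r → 2 ≤ m → ∀ P : Finset (ℤ × ℤ),
      (P.card : ℝ) ≤ (L : ℝ) ^ c → (∀ q ∈ P, |(q.1 : ℝ)| ≤ (L : ℝ) ^ δ) →
      ∀ F : Finset ℕ, F ⊆ range L → (∀ t ∈ F, Sp2 3 1 P m ((T 3 1)^[t] x)) →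
        (F.card : ℝ) ≤ C * (L / Real.log L) := by
  set ε : ℝ := (1 - r * c) / 2 with hε
  have hε0 : 0 < ε := by rw [hε]; linarith
  obtain ⟨C, hC0, hC⟩ := asym_all (α := 3) (by norm_num) (g := 3) (by norm_num) le_rfl r hr hc0 hδ0 hε0
    (by rw [hε]; linarith) h2
  obtain ⟨N1, hN1⟩ := small_start hε0
  refine ⟨C + N1, by positivity, ?_⟩
  intro x L hx hL hlog hinj m hmr hm P hP hB F hF hsp
  have hlog' := one_le_div_log hL
  have hLR : (2 : ℝ) ≤ L := by exact_mod_cast hL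
  have hN0 : (0 : ℝ) ≤ N1 := Nat.cast_nonneg _
  rcases lt_or_ge L N1 with hlt | hge
  · have h3 : (F.card : ℝ) ≤ N1 := by
      have h4 := Finset.card_le_card hF
      rw [Finset.card_range] at h4
      exact_mod_cast (by omega : F.card ≤ N1)
    nlinarith
  · have h5 := hC 1 (by norm_num) m hmr hm P x L hL (by
      rw [Int.cast_one, abs_one]
      exact Real.one_le_rpow (by linarith) hδ0) hP hB (hN1 x L hx hge hlog) hinj F hF hsp
    have h6 : 0 ≤ (N1 : ℝ) * (L / Real.log L) := by nlinarith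
    nlinarith

/-! ### divisibility chains -/

lemma ch_bound {A : ℝ} {n B N : ℕ} (h : A ≤ (1 + Real.logb 2 ((3 : ℕ) : ℝ)) * √((n : ℝ) * N) +
      N * (2 + Real.logb 2 ((3 : ℕ) : ℝ) + Real.logb 2 (|((1 : ℤ) : ℝ)| + 2 * B))) :
    A ≤ 2.6 * √((n : ℝ) * N) + N * (3.6 + Real.logb 2 (1 + 2 * B)) := by
  have hl := logb_three
  have e : |((1 : ℤ) : ℝ)| = 1 := by norm_num
  rw [e] at h
  have h1 : (1 + Real.logb 2 ((3 : ℕ) : ℝ)) * √((n : ℝ) * N) ≤ 2.6 * √((n : ℝ) * N) :=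
    mul_le_mul_of_nonneg_right (by linarith) (Real.sqrt_nonneg _)
  have h2 : (N : ℝ) * (2 + Real.logb 2 ((3 : ℕ) : ℝ) + Real.logb 2 (1 + 2 * B)) ≤
      N * (3.6 + Real.logb 2 (1 + 2 * B)) :=
    mul_le_mul_of_nonneg_left (by linarith) (Nat.cast_nonneg _)
  exact h.trans (add_le_add h1 h2)

theorem ch_special {x : ℤ} {B L : ℕ} (P : Finset (ℤ × ℤ)) {D : Set ℤ} (hD : DivChain D)
    (hB : ∀ q ∈ P, |q.1| ≤ B) (hinj : Set.InjOn (fun i => (T 3 1)^[i] x) (range L : Finset ℕ))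
    (S : Finset ℕ) (hS : S ⊆ range L) (hsp : ∀ t ∈ S, SpD 3 1 P D ((T 3 1)^[t] x)) :
    (S.card : ℝ) ≤ 2.6 * √((L : ℝ) * P.card) + P.card * (3.6 + Real.logb 2 (1 + 2 * B)) :=
  ch_bound (chain_opt (by norm_num) (by norm_num) (by norm_num) le_rfl P hD hB hinj S hS hsp)

/-- odd terms in the multiples of a chain -/
theorem ch_odd {x : ℤ} {L : ℕ} (Q : Finset ℤ) {D : Set ℤ} (hD : DivChain D)
    (hinj : Set.InjOn (fun i => (T 3 1)^[i] x) (range L : Finset ℕ))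
    (S : Finset ℕ) (hS : S ⊆ range L) (hodd : ∀ t ∈ S, (T 3 1)^[t] x % 2 = 1)
    (h : ∀ t ∈ S, ∃ s ∈ Q, ∃ d ∈ D, (T 3 1)^[t] x = s * d) :
    (S.card : ℝ) ≤ 2.6 * √((L : ℝ) * Q.card) + 3.6 * Q.card := by
  classical
  set P : Finset (ℤ × ℤ) := ({0} : Finset ℤ) ×ˢ Q with hP
  have hPc : P.card = Q.card := by rw [hP, Finset.card_product]; simp
  have h1 := ch_special (B := 0) P hD (by
    intro q hq
    rw [hP, Finset.mem_product, Finset.mem_singleton] at hq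
    rw [hq.1]; simp) hinj S hS (by
    intro t ht
    obtain ⟨s, hs, d, hd, he⟩ := h t ht
    have ho := hodd t ht
    refine ⟨0, s, d, ?_, ?_, hd, by rw [zero_add]; exact he, ?_⟩
    · rw [hP, Finset.mem_product]; exact ⟨Finset.mem_singleton_self _, hs⟩
    · rintro rfl; rw [zero_mul] at he; omega
    · intro i hi _ hd2
      have h2 : (2 : ℤ) ∣ (T 3 1)^[t] x - 0 := (dvd_pow_self 2 (by omega)).trans hd2
      omega)
  rw [hPc] at h1
  have e : Real.logb 2 (1 + 2 * ((0 : ℕ) : ℝ)) = 0 := by norm_num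
  rw [e] at h1
  linarith

theorem ch_mult {x : ℤ} (hx : 0 < x) {L : ℕ} (hL : 2 * Real.logb 2 x < L) (Q : Finset ℤ)
    {D : Set ℤ} (hD : DivChain D)
    (hinj : Set.InjOn (fun i => (T 3 1)^[i] x) (range L : Finset ℕ))
    (h : ∀ t, t < L → (T 3 1)^[t] x % 2 = 1 → ∃ s ∈ Q, ∃ d ∈ D, (T 3 1)^[t] x = s * d) :
    L < 136 * Q.card := by
  by_contra hcon
  push Not at hcon
  have h1 := ch_odd Q hD hinj ((range L).filter fun t => (T 3 1)^[t] x % 2 ≠ 0)
    (Finset.filter_subset _ _) (fun t ht => by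
      have := (Finset.mem_filter.1 ht).2; omega) (fun t ht => by
      have h2 := Finset.mem_filter.1 ht
      exact h t (Finset.mem_range.1 h2.1) (by have := h2.2; omega))
  have h2 := odd_many hx L
  have hcR : 136 * (Q.card : ℝ) ≤ L := by exact_mod_cast hcon
  set N : ℝ := (Q.card : ℝ) with hN
  set p : ℝ := (L : ℝ) with hp
  have hN0 : 0 ≤ N := Nat.cast_nonneg _
  have hxR : (1 : ℝ) ≤ x := by exact_mod_cast hx
  have hlx0 : 0 ≤ Real.logb 2 x := Real.logb_nonneg (by norm_num) hxR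
  have hp0 : 0 < p := by linarith
  have hs : √(p * N) ≤ 0.0858 * p := by
    rw [Real.sqrt_le_left (by positivity)]
    nlinarith
  nlinarith

theorem ch_chain {x : ℤ} (hx : 0 < x) {L : ℕ}
    (hinj : Set.InjOn (fun i => (T 3 1)^[i] x) (range L : Finset ℕ))
    (S : Finset ℕ) (hS : S ⊆ range L) (hodd : ∀ t ∈ S, (T 3 1)^[t] x % 2 = 1)
    (hch : ∀ s ∈ S, ∀ t ∈ S, (T 3 1)^[s] x ∣ (T 3 1)^[t] x ∨ (T 3 1)^[t] x ∣ (T 3 1)^[s] x) :
    (S.card : ℝ) ≤ 2.6 * √(L : ℝ) + 3.6 := by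
  have hpos := pos_iter x hx
  have h := ch_odd (Q := {1}) (D := {d | ∃ t ∈ S, d = (T 3 1)^[t] x}) ⟨by
      rintro d ⟨t, _, rfl⟩; exact hpos t, by
      rintro d ⟨t, ht, rfl⟩ d' ⟨t', ht', rfl⟩; exact hch t ht t' ht'⟩ hinj S hS hodd (by
      intro t ht
      exact ⟨1, by simp, _, ⟨t, ht, rfl⟩, by rw [one_mul]⟩)
  simpa using h

theorem ch_anti {x : ℤ} (hx : 0 < x) {L : ℕ} (hL : 2 * Real.logb 2 x < L)
    (hinj : Set.InjOn (fun i => (T 3 1)^[i] x) (range L : Finset ℕ)) :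
    ∃ A : Finset ℤ, (∀ y ∈ A, y % 2 = 1 ∧ ∃ t, t < L ∧ y = (T 3 1)^[t] x) ∧
      (∀ y ∈ A, ∀ z ∈ A, y ∣ z → y = z) ∧ √(L : ℝ) ≤ 25 * A.card := by
  classical
  have hpos := pos_iter x hx
  set S := (range L).filter fun t => (T 3 1)^[t] x % 2 ≠ 0 with hS
  set F := S.image fun t => (T 3 1)^[t] x with hF
  have hFc : F.card = S.card := by
    apply Finset.card_image_of_injOn
    intro a ha b hb hab
    exact hinj (Finset.mem_coe.2 (Finset.mem_filter.1 (Finset.mem_coe.1 ha)).1)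
      (Finset.mem_coe.2 (Finset.mem_filter.1 (Finset.mem_coe.1 hb)).1) hab
  have hFm : ∀ y ∈ F, y % 2 = 1 ∧ 0 < y ∧ ∃ t, t < L ∧ y = (T 3 1)^[t] x := by
    intro y hy
    obtain ⟨t, ht, rfl⟩ := Finset.mem_image.1 hy
    have h1 := Finset.mem_filter.1 ht
    exact ⟨by have := h1.2; omega, hpos t, t, Finset.mem_range.1 h1.1, rfl⟩
  obtain ⟨A, hA, hA1, hA2⟩ := mirsky F ⌊2.6 * √(L : ℝ) + 3.6⌋₊ (by
    intro y hy z hz h1 h2
    exact Int.dvd_antisymm (hFm y hy).2.1.le (hFm z hz).2.1.le h1 h2) (by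
    intro C hC hch
    apply Nat.le_floor
    set S' := S.filter fun t => (T 3 1)^[t] x ∈ C with hS'
    have h1 : C.card ≤ S'.card := by
      have h2 : C ⊆ S'.image fun t => (T 3 1)^[t] x := by
        intro y hy
        obtain ⟨t, ht, he⟩ := Finset.mem_image.1 (hC hy)
        exact Finset.mem_image.2 ⟨t, Finset.mem_filter.2 ⟨ht, by rw [he]; exact hy⟩, he⟩
      exact (Finset.card_le_card h2).trans Finset.card_image_le
    have h2 := ch_chain hx hinj S' (fun t ht =>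
        (Finset.mem_filter.1 (Finset.mem_filter.1 ht).1).1) (fun t ht => by
        have := (Finset.mem_filter.1 (Finset.mem_filter.1 ht).1).2; omega)
      (fun s hs t ht => hch _ (Finset.mem_filter.1 hs).2 _ (Finset.mem_filter.1 ht).2)
    have h3 : (C.card : ℝ) ≤ S'.card := by exact_mod_cast h1
    exact h3.trans h2)
  refine ⟨A, fun y hy => ⟨(hFm y (hA hy)).1, (hFm y (hA hy)).2.2⟩, hA1, ?_⟩
  have hxR : (1 : ℝ) ≤ x := by exact_mod_cast hx
  have hlx0 : 0 ≤ Real.logb 2 x := Real.logb_nonneg (by norm_num) hxR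
  have hL1 : (1 : ℝ) ≤ L := by
    have : (0 : ℝ) < L := by linarith
    have : 0 < L := by exact_mod_cast this
    exact_mod_cast this
  have hs1 : 1 ≤ √(L : ℝ) := Real.one_le_sqrt.2 hL1
  have h2 : (F.card : ℝ) ≤ (⌊2.6 * √(L : ℝ) + 3.6⌋₊ : ℝ) * A.card := by exact_mod_cast hA2
  have h3 : (⌊2.6 * √(L : ℝ) + 3.6⌋₊ : ℝ) ≤ 2.6 * √(L : ℝ) + 3.6 := Nat.floor_le (by positivity)
  have hA0 : (0 : ℝ) ≤ A.card := Nat.cast_nonneg _
  have h4 : (F.card : ℝ) ≤ 6.2 * √(L : ℝ) * A.card := by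
    refine h2.trans (mul_le_mul_of_nonneg_right ?_ hA0)
    linarith
  have h5 := odd_many hx L
  rw [← hS, ← hFc] at h5
  have hsq : √(L : ℝ) * √(L : ℝ) = L := Real.mul_self_sqrt (Nat.cast_nonneg _)
  have h6 : √(L : ℝ) * √(L : ℝ) ≤ (25 * A.card) * √(L : ℝ) := by
    rw [hsq]
    nlinarith
  exact le_of_mul_le_mul_right h6 (by linarith)

end Pool.Agent.V5helper5.CO
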