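import Mathlib
import Pool.Agent.V5helper5.CO.Long

set_option autoImplicit false

namespace Pool.Agent.V5helper5.CO

open Finset Filter
open Pool.Agent.V5helper5.AB

/-- the 3x+1 function on the natural numbers -/
def TN (n : ℕ) : ℕ := if n % 2 = 0 then n / 2 else (3 * n + 1) / 2

/-- the Collatz function -/
def CN (n : ℕ) : ℕ := if n % 2 = 0 then n / 2 else 3 * n + 1

lemma TN_cast (n t : ℕ) : ((TN^[t] n : ℕ) : ℤ) = (T 3 1)^[t] (n : ℤ) := by
  induction t with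
  | zero => rfl
  | succ t ih =>
    rw [Function.iterate_succ_apply', Function.iterate_succ_apply', ← ih]
    unfold TN T
    split_ifs <;> omega

lemma TN_two (n : ℕ) : n ≤ 2 * TN n := by unfold TN; split_ifs <;> omega

lemma TN_pow (n k : ℕ) : n ≤ 2 ^ k * TN^[k] n := by
  induction k with
  | zero => simp
  | succ k ih =>
    rw [Function.iterate_succ_apply']
    calc n ≤ 2 ^ k * TN^[k] n := ih
      _ ≤ 2 ^ k * (2 * TN (TN^[k] n)) := Nat.mul_le_mul_left _ (TN_two _)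
      _ = _ := by ring

/-- `k` is the total stopping time of `n` for `f` -/
def Time (f : ℕ → ℕ) (n k : ℕ) : Prop := f^[k] n = 1 ∧ ∀ j < k, f^[j] n ≠ 1

lemma time_inj {f : ℕ → ℕ} {n k : ℕ} (h : Time f n k) :
    ∀ i < k, ∀ j < k, f^[i] n = f^[j] n → i = j := by
  have key : ∀ i j : ℕ, i < j → j < k → f^[i] n ≠ f^[j] n := by
    intro i j hij hj he
    apply h.2 (k - j + i) (by omega)
    rw [Function.iterate_add_apply, he, ← Function.iterate_add_apply, show k - j + j = k by omega]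
    exact h.1
  intro i hi j hj he
  rcases lt_trichotomy i j with h1 | h1 | h1
  · exact absurd he (key i j h1 hj)
  · exact h1
  · exact absurd he.symm (key j i h1 hi)

lemma inj_cast {n L : ℕ} (h : ∀ i < L, ∀ j < L, TN^[i] n = TN^[j] n → i = j) :
    Set.InjOn (fun i => (T 3 1)^[i] (n : ℤ)) (range L : Finset ℕ) := by
  intro i hi j hj hij
  have hij' : (T 3 1)^[i] (n : ℤ) = (T 3 1)^[j] (n : ℤ) := hij
  apply h i (mem_range.1 (mem_coe.1 hi)) j (mem_range.1 (mem_coe.1 hj))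
  rw [← TN_cast, ← TN_cast] at hij'
  exact_mod_cast hij'

/-- all odd terms before time `L` are of the form `s a ^ m`, `s ∈ Q` -/
def Cover (f : ℕ → ℕ) (n L m : ℕ) (Q : Finset ℕ) : Prop :=
  ∀ j < L, f^[j] n % 2 = 1 → ∃ s ∈ Q, ∃ a : ℕ, f^[j] n = s * a ^ m

lemma cover_cast {n L m : ℕ} {Q : Finset ℕ} (h : Cover TN n L m Q) :
    ∀ t : ℕ, t < L → (T 3 1)^[t] (n : ℤ) % 2 = 1 →
      ∃ s ∈ Q.image (fun s : ℕ => (s : ℤ)), ∃ a : ℤ, (T 3 1)^[t] (n : ℤ) = s * a ^ m := by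
  intro t ht hodd
  rw [← TN_cast] at hodd ⊢
  obtain ⟨s, hs, a, ha⟩ := h t ht (by omega)
  refine ⟨s, Finset.mem_image_of_mem _ hs, a, ?_⟩
  rw [ha]; push_cast; ring

lemma card_cast (Q : Finset ℕ) : (Q.image (fun s : ℕ => (s : ℤ))).card = Q.card :=
  Finset.card_image_of_injective _ Nat.cast_injective

theorem nat_bound (r : ℕ) (hr : r = 2 ∨ r = 3) {ε : ℝ} (hε : 0 < ε) :
    ∃ C : ℝ, 0 < C ∧ ∀ n L : ℕ, 1 ≤ n → (∀ i < L, ∀ j < L, TN^[i] n = TN^[j] n → i = j) →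
      ∀ m : ℕ, 5 ≤ m + r → 2 ≤ m → ∀ Q : Finset ℕ, Cover TN n L m Q →
        (L : ℝ) ≤ (1 + ε) * Real.logb 2 n + C * (1 + Q.card : ℝ) ^ ((r : ℝ) + ε) := by
  obtain ⟨C, hC0, hC⟩ := sq_bound r hr hε
  refine ⟨C, hC0, fun n L hn hinj m hmr hm Q hQ => ?_⟩
  have h := hC n L (by exact_mod_cast hn) (inj_cast hinj) m hmr hm _ (cover_cast hQ)
  rw [card_cast] at h
  exact_mod_cast h

/-- the constant of a family with few `m`-th power classes -/
theorem nat_const (r : ℕ) (hr : r = 2 ∨ r = 3) {c : ℝ} (hc : r * c < 1) {ε : ℝ} (hε : 0 < ε) :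
    ∃ n₀ : ℕ, ∀ n k : ℕ, n₀ ≤ n → Time TN n k → ∀ m : ℕ, 5 ≤ m + r → 2 ≤ m → ∀ Q : Finset ℕ,
      (Q.card : ℝ) ≤ Real.log n ^ c → Cover TN n k m Q →
        |(k : ℝ) / Real.log n - 1 / Real.log 2| ≤ ε := by
  have hr0 : (2 : ℝ) ≤ r := by rcases hr with h | h <;> rw [h] <;> norm_num
  have hl2 : 0 < Real.log 2 := Real.log_pos (by norm_num)
  set c' : ℝ := max c 0 with hc'
  have hc'0 : 0 ≤ c' := le_max_right _ _
  have hrc' : r * c' < 1 := by
    rcases max_cases c 0 with h | h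
    · rw [hc', h.1]; exact hc
    · rw [hc', h.1]; linarith
  have hc'1 : c' < 1 := by nlinarith
  -- a small exponent
  set ε₁ : ℝ := min (ε * Real.log 2 / 2) ((1 - r * c') / 2) with hε₁
  have hε₁0 : 0 < ε₁ := lt_min (by positivity) (by linarith)
  have hexp : c' * (r + ε₁) < 1 := by
    have h1 : ε₁ ≤ (1 - r * c') / 2 := min_le_right _ _
    have h2 : c' * ε₁ ≤ 1 * ε₁ := mul_le_mul_of_nonneg_right hc'1.le hε₁0.le
    linarith
  obtain ⟨C, hC0, hC⟩ := nat_bound r hr hε₁0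
  -- the error term
  set κ : ℝ := c' * (r + ε₁) with hκ
  have hlim : Tendsto (fun n : ℕ => Real.log (n : ℝ)) atTop atTop :=
    Real.tendsto_log_atTop.comp tendsto_natCast_atTop_atTop
  have herr : ∀ᶠ n : ℕ in atTop, C * ((2 : ℝ) ^ ((r : ℝ) + ε₁) * Real.log n ^ κ) ≤
      ε / 2 * Real.log n := by
    have h1 : Tendsto (fun y : ℝ => y ^ (1 - κ)) atTop atTop := tendsto_rpow_atTop (by linarith)
    have h2 := (h1.comp hlim).eventually_ge_atTop (C * (2 : ℝ) ^ ((r : ℝ) + ε₁) * (2 / ε))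
    filter_upwards [h2, hlim.eventually_ge_atTop 1] with n hn hn1
    simp only [Function.comp_apply] at hn
    have h3 : Real.log (n : ℝ) ^ κ * Real.log n ^ (1 - κ) = Real.log n := by
      rw [← Real.rpow_add (by linarith)]
      norm_num
    have h4 : 0 < Real.log (n : ℝ) ^ κ := Real.rpow_pos_of_pos (by linarith) _
    have h5 : C * (2 : ℝ) ^ ((r : ℝ) + ε₁) ≤ ε / 2 * Real.log n ^ (1 - κ) := by
      have : C * (2 : ℝ) ^ ((r : ℝ) + ε₁) = ε / 2 * (C * (2 : ℝ) ^ ((r : ℝ) + ε₁) * (2 / ε)) := by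
        field_simp
      rw [this]
      exact mul_le_mul_of_nonneg_left hn (by positivity)
    calc C * ((2 : ℝ) ^ ((r : ℝ) + ε₁) * Real.log n ^ κ) =
        (C * (2 : ℝ) ^ ((r : ℝ) + ε₁)) * Real.log n ^ κ := by ring
      _ ≤ (ε / 2 * Real.log n ^ (1 - κ)) * Real.log n ^ κ :=
          mul_le_mul_of_nonneg_right h5 h4.le
      _ = ε / 2 * (Real.log (n : ℝ) ^ κ * Real.log n ^ (1 - κ)) := by ring
      _ = _ := by rw [h3]
  obtain ⟨N1, hN1⟩ := eventually_atTop.1 (herr.and (hlim.eventually_ge_atTop 1))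
  refine ⟨N1 + 3, fun n k hn ht m hmr hm Q hQ hcov => ?_⟩
  obtain ⟨h1, hlog1⟩ := hN1 n (by omega)
  have hn1 : 1 ≤ n := by omega
  have hnR : (1 : ℝ) ≤ n := by exact_mod_cast hn1
  have hk := hC n k hn1 (time_inj ht) m hmr hm Q hcov
  have hlogb : Real.logb 2 (n : ℝ) = Real.log n / Real.log 2 := rfl
  have hlow : Real.log n / Real.log 2 ≤ k := by
    have h2 : n ≤ 2 ^ k := by
      have := TN_pow n k
      rw [ht.1, mul_one] at this
      exact this
    rw [div_le_iff₀ hl2, ← Real.log_pow]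
    apply Real.log_le_log (by linarith)
    exact_mod_cast h2
  have hup : (k : ℝ) ≤ Real.log n / Real.log 2 + ε * Real.log n := by
    have hQ1 : (1 + Q.card : ℝ) ≤ 2 * Real.log n ^ c' := by
      have h2 : Real.log (n : ℝ) ^ c ≤ Real.log n ^ c' :=
        Real.rpow_le_rpow_of_exponent_le hlog1 (le_max_left _ _)
      have h3 : 1 ≤ Real.log (n : ℝ) ^ c' := Real.one_le_rpow hlog1 hc'0
      linarith
    have hQ2 : (1 + Q.card : ℝ) ^ ((r : ℝ) + ε₁) ≤ (2 : ℝ) ^ ((r : ℝ) + ε₁) * Real.log n ^ κ := by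
      have h3 : 0 ≤ Real.log (n : ℝ) ^ c' := Real.rpow_nonneg (by linarith) _
      have h4 : (1 + Q.card : ℝ) ^ ((r : ℝ) + ε₁) ≤ (2 * Real.log n ^ c') ^ ((r : ℝ) + ε₁) :=
        Real.rpow_le_rpow (by positivity) hQ1 (by linarith)
      rw [Real.mul_rpow (by norm_num) h3, ← Real.rpow_mul (by linarith)] at h4
      exact h4
    have h5 : C * (1 + Q.card : ℝ) ^ ((r : ℝ) + ε₁) ≤ ε / 2 * Real.log n :=
      (mul_le_mul_of_nonneg_left hQ2 hC0.le).trans h1
    have h6 : ε₁ * (Real.log n / Real.log 2) ≤ ε / 2 * Real.log n := by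
      have h7 : ε₁ ≤ ε * Real.log 2 / 2 := min_le_left _ _
      have h8 : 0 ≤ Real.log n / Real.log 2 := div_nonneg (by linarith) hl2.le
      calc ε₁ * (Real.log n / Real.log 2) ≤ (ε * Real.log 2 / 2) * (Real.log n / Real.log 2) :=
          mul_le_mul_of_nonneg_right h7 h8
        _ = ε / 2 * Real.log n := by field_simp
    rw [hlogb] at hk
    linarith
  have hlogpos : 0 < Real.log (n : ℝ) := by linarith
  have e1 : (k : ℝ) / Real.log n - 1 / Real.log 2 = (k - Real.log n / Real.log 2) / Real.log n := by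
    field_simp
  rw [e1, abs_of_nonneg (div_nonneg (by linarith) hlogpos.le), div_le_iff₀ hlogpos]
  linarith

/-! ### the Collatz function -/

/-- the times at which the shortcut trajectory visits the Collatz trajectory -/
def tim (n : ℕ) : ℕ → ℕ
  | 0 => 0
  | t + 1 => tim n t + if (T 3 1)^[t] (n : ℤ) % 2 = 0 then 1 else 2

lemma tim_spec (n t : ℕ) : ((CN^[tim n t] n : ℕ) : ℤ) = (T 3 1)^[t] (n : ℤ) := by
  induction t with
  | zero => rfl
  | succ t ih =>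
    rw [Function.iterate_succ_apply', tim]
    split_ifs with h
    · rw [Function.iterate_succ_apply', ← ih]
      rw [← ih] at h
      set m := CN^[tim n t] n with hm
      have h2 : CN m = m / 2 := by unfold CN; rw [if_pos (by omega)]
      rw [h2]
      unfold T
      rw [if_pos h]
      omega
    · rw [Function.iterate_succ_apply', Function.iterate_succ_apply', ← ih]
      rw [← ih] at h
      set m := CN^[tim n t] n with hm
      have h1 : m % 2 = 1 := by omega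
      have h2 : CN m = 3 * m + 1 := by unfold CN; rw [if_neg (by omega)]
      have h3 : CN (3 * m + 1) = (3 * m + 1) / 2 := by unfold CN; rw [if_pos (by omega)]
      rw [h2, h3]
      unfold T
      rw [if_neg h]
      omega

lemma tim_mono (n : ℕ) : StrictMono (tim n) := by
  apply strictMono_nat_of_lt_succ
  intro t
  rw [tim]
  split_ifs <;> omega

lemma tim_le (n t : ℕ) : tim n t ≤ 2 * t := by
  induction t with
  | zero => simp [tim]
  | succ t ih => rw [tim]; split_ifs <;> omega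

lemma le_tim (n t : ℕ) : t ≤ tim n t := (tim_mono n).le_apply

lemma injC {n L : ℕ} (h : ∀ i < 2 * L, ∀ j < 2 * L, CN^[i] n = CN^[j] n → i = j) :
    Set.InjOn (fun i => (T 3 1)^[i] (n : ℤ)) (range L : Finset ℕ) := by
  intro s hs t ht hst
  have hs' := mem_range.1 (mem_coe.1 hs)
  have ht' := mem_range.1 (mem_coe.1 ht)
  have hst' : (T 3 1)^[s] (n : ℤ) = (T 3 1)^[t] (n : ℤ) := hst
  have h1 : CN^[tim n s] n = CN^[tim n t] n := by
    rw [← tim_spec, ← tim_spec] at hst'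
    exact_mod_cast hst'
  have h2 := h (tim n s) (by have := tim_le n s; omega) (tim n t)
    (by have := tim_le n t; omega) h1
  exact (tim_mono n).injective h2

lemma coverC_cast {n L m : ℕ} {Q : Finset ℕ} (h : Cover CN n (2 * L) m Q) :
    ∀ t : ℕ, t < L → (T 3 1)^[t] (n : ℤ) % 2 = 1 →
      ∃ s ∈ Q.image (fun s : ℕ => (s : ℤ)), ∃ a : ℤ, (T 3 1)^[t] (n : ℤ) = s * a ^ m := by
  intro t ht hodd
  rw [← tim_spec] at hodd ⊢
  obtain ⟨s, hs, a, ha⟩ := h (tim n t) (by have := tim_le n t; omega) (by omega)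
  refine ⟨s, Finset.mem_image_of_mem _ hs, a, ?_⟩
  rw [ha]; push_cast; ring

theorem natC_bound (r : ℕ) (hr : r = 2 ∨ r = 3) {ε : ℝ} (hε : 0 < ε) :
    ∃ C : ℝ, 0 < C ∧ ∀ n k : ℕ, 1 ≤ n → (∀ i < k, ∀ j < k, CN^[i] n = CN^[j] n → i = j) →
      ∀ m : ℕ, 5 ≤ m + r → 2 ≤ m → ∀ Q : Finset ℕ, Cover CN n k m Q →
        (k : ℝ) ≤ (2 + ε) * Real.logb 2 n + C * (1 + Q.card : ℝ) ^ ((r : ℝ) + ε) := by
  have hr0 : (2 : ℝ) ≤ r := by rcases hr with h | h <;> rw [h] <;> norm_num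
  obtain ⟨C, hC0, hC⟩ := sq_bound r hr (ε := ε / 2) (by linarith)
  refine ⟨2 * C + 1, by positivity, fun n k hn hinj m hmr hm Q hQ => ?_⟩
  set L := k / 2 with hL
  have hLk : 2 * L ≤ k := by omega
  have h := hC n L (by exact_mod_cast hn) (injC fun i hi j hj => hinj i (by omega) j (by omega))
    m hmr hm _ (coverC_cast fun j hj => hQ j (by omega))
  rw [card_cast] at h
  have h1 : (k : ℝ) ≤ 2 * L + 1 := by exact_mod_cast (by omega : k ≤ 2 * L + 1)
  have hq : (1 : ℝ) ≤ 1 + Q.card := by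
    have : (0 : ℝ) ≤ Q.card := Nat.cast_nonneg _
    linarith
  have h2 : (1 : ℝ) ≤ (1 + Q.card : ℝ) ^ ((r : ℝ) + ε) := Real.one_le_rpow hq (by linarith)
  have h3 : (1 + Q.card : ℝ) ^ ((r : ℝ) + ε / 2) ≤ (1 + Q.card : ℝ) ^ ((r : ℝ) + ε) :=
    Real.rpow_le_rpow_of_exponent_le hq (by linarith)
  push_cast at h
  have h4 : C * (1 + Q.card : ℝ) ^ ((r : ℝ) + ε / 2) ≤ C * (1 + Q.card : ℝ) ^ ((r : ℝ) + ε) :=
    mul_le_mul_of_nonneg_left h3 hC0.le
  linarith

theorem exc_many (r : ℕ) (hr : r = 2 ∨ r = 3) {c : ℝ} (hc : r * c < 1) :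
    ∃ n₀ : ℕ, ∀ n : ℕ, n₀ ≤ n → (∀ i < n, ∀ j < n, CN^[i] n = CN^[j] n → i = j) →
      ∀ m : ℕ, 5 ≤ m + r → 2 ≤ m → ∀ Q : Finset ℕ, (Q.card : ℝ) ≤ (n : ℝ) ^ c →
        ¬ Cover CN n n m Q := by
  have hr0 : (2 : ℝ) ≤ r := by rcases hr with h | h <;> rw [h] <;> norm_num
  set c' : ℝ := (max c 0 + 1 / r) / 2 with hc'
  have h0 : max c 0 < 1 / r := by
    rw [lt_div_iff₀ (by linarith)]
    rcases max_cases c 0 with h | h
    · rw [h.1]; linarith
    · rw [h.1]; linarith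
  have hrc' : r * c' < 1 := by
    have h1 : c' < 1 / r := by rw [hc']; linarith
    rw [lt_div_iff₀ (by linarith)] at h1; linarith
  have hcc' : max c 0 < c' := by rw [hc']; linarith
  obtain ⟨L0, hL0⟩ := sq_long r hr hrc' (η := 1) (by norm_num)
  -- `n ^ c ≤ (n / 2) ^ c'` and `2 log₂ n ≤ n / 2`
  have e1 : ∀ᶠ n : ℕ in atTop, (n : ℝ) ^ c ≤ ((n / 2 : ℕ) : ℝ) ^ c' := by
    have h1 : Tendsto (fun n : ℕ => (n : ℝ) ^ (c' - max c 0)) atTop atTop :=
      (tendsto_rpow_atTop (by linarith)).comp tendsto_natCast_atTop_atTop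
    filter_upwards [h1.eventually_ge_atTop ((3 : ℝ) ^ c'), eventually_ge_atTop 2] with n hn hn2
    have hnR : (2 : ℝ) ≤ n := by exact_mod_cast hn2
    have hc'0 : 0 ≤ c' := (le_max_right c 0).trans hcc'.le
    have h2 : (n : ℝ) ^ c ≤ (n : ℝ) ^ (max c 0) :=
      Real.rpow_le_rpow_of_exponent_le (by linarith) (le_max_left _ _)
    have h3 : (n : ℝ) ≤ 3 * ((n / 2 : ℕ) : ℝ) := by exact_mod_cast (by omega : n ≤ 3 * (n / 2))
    have h4 : (n : ℝ) ^ c' ≤ 3 ^ c' * ((n / 2 : ℕ) : ℝ) ^ c' := by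
      rw [← Real.mul_rpow (by norm_num) (Nat.cast_nonneg _)]
      exact Real.rpow_le_rpow (by linarith) h3 hc'0
    have h5 : (n : ℝ) ^ c' = (n : ℝ) ^ (max c 0) * (n : ℝ) ^ (c' - max c 0) := by
      rw [← Real.rpow_add (by linarith)]; congr 1; ring
    have h6 : 0 < (3 : ℝ) ^ c' := by positivity
    have h7 : 0 ≤ (n : ℝ) ^ (max c 0) := by positivity
    have h8 : (n : ℝ) ^ (max c 0) * 3 ^ c' ≤ 3 ^ c' * ((n / 2 : ℕ) : ℝ) ^ c' := by
      calc (n : ℝ) ^ (max c 0) * 3 ^ c' ≤ (n : ℝ) ^ (max c 0) * (n : ℝ) ^ (c' - max c 0) :=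
          mul_le_mul_of_nonneg_left hn h7
        _ = (n : ℝ) ^ c' := h5.symm
        _ ≤ _ := h4
    have h9 : (n : ℝ) ^ (max c 0) ≤ ((n / 2 : ℕ) : ℝ) ^ c' := by nlinarith
    exact h2.trans h9
  have e2 : ∀ᶠ n : ℕ in atTop, (1 + 1) * Real.logb 2 n ≤ ((n / 2 : ℕ) : ℝ) := by
    have hcast : Tendsto (fun n : ℕ => (n : ℝ)) atTop atTop := tendsto_natCast_atTop_atTop
    have h1 := Real.isLittleO_log_id_atTop.comp_tendsto hcast
    have hl2 : 0 < Real.log 2 := Real.log_pos (by norm_num)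
    have h2 := h1.bound (show (0 : ℝ) < Real.log 2 / 6 by positivity)
    filter_upwards [h2, eventually_ge_atTop 2] with n hn hn2
    have hnR : (2 : ℝ) ≤ n := by exact_mod_cast hn2
    simp only [Function.comp_apply, id_eq, Real.norm_eq_abs] at hn
    rw [abs_of_nonneg (Real.log_nonneg (by linarith)), abs_of_nonneg (by linarith)] at hn
    have h3 : (n : ℝ) ≤ 3 * ((n / 2 : ℕ) : ℝ) := by exact_mod_cast (by omega : n ≤ 3 * (n / 2))
    have h4 : Real.logb 2 (n : ℝ) ≤ n / 6 := by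
      rw [Real.logb, div_le_iff₀ hl2]
      linarith
    linarith
  obtain ⟨N1, hN1⟩ := eventually_atTop.1 (e1.and e2)
  refine ⟨N1 + 2 * L0 + 2, fun n hn hinj m hmr hm Q hQ hcov => ?_⟩
  obtain ⟨h1, h2⟩ := hN1 n (by omega)
  have hn1 : 1 ≤ n := by omega
  obtain ⟨t, ht, hodd, hne⟩ := hL0 n (n / 2) (by exact_mod_cast hn1) (by omega) (by
      exact_mod_cast h2) (injC fun i hi j hj => hinj i (by omega) j (by omega)) m hmr hm
    (Q.image (fun s : ℕ => (s : ℤ))) (by rw [card_cast]; exact hQ.trans h1)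
  obtain ⟨s, hs, a, ha⟩ := coverC_cast (L := n / 2) (fun j hj => hcov j (by omega)) t ht hodd
  exact hne s hs a ha

end Pool.Agent.V5helper5.CO
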