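import Mathlib
import Pool.Agent.V5helper5.CO.Nat

set_option autoImplicit false

namespace Pool.Agent.V5helper5.CO

open Finset Filter
open Pool.Agent.V5helper5.AB

lemma odd_prop {x : ℤ} (hx : 0 < x) {L : ℕ} {ε : ℝ} (hε : 0 < ε)
    (hL : (1 + ε) * Real.logb 2 x < L) : (L : ℝ) / (2 * ((1 + ε) / ε)) ≤
      (((range L).filter fun t => (T 3 1)^[t] x % 2 ≠ 0).card : ℝ) := by
  refine le_trans ?_ (odd_many hx L)
  have h5 : Real.logb 2 x ≤ L / (1 + ε) := by
    rw [le_div_iff₀ (by linarith)]; linarith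
  have h6 : (L : ℝ) / (2 * ((1 + ε) / ε)) = (L - L / (1 + ε)) / 2 := by
    field_simp; ring
  rw [h6]; linarith

theorem ch_mult' {x : ℤ} (hx : 0 < x) {L : ℕ} {ε : ℝ} (hε : 0 < ε)
    (hL : (1 + ε) * Real.logb 2 x < L) (Q : Finset ℤ) {D : Set ℤ} (hD : DivChain D)
    (hinj : Set.InjOn (fun i => (T 3 1)^[i] x) (range L : Finset ℕ))
    (h : ∀ t, t < L → (T 3 1)^[t] x % 2 = 1 → ∃ s ∈ Q, ∃ d ∈ D, (T 3 1)^[t] x = s * d) :
    (L : ℝ) ≤ 41 * ((1 + ε) / ε) ^ 2 * Q.card := by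
  by_contra hcon
  push Not at hcon
  have h1 := ch_odd Q hD hinj ((range L).filter fun t => (T 3 1)^[t] x % 2 ≠ 0)
    (Finset.filter_subset _ _) (fun t ht => by
      have := (Finset.mem_filter.1 ht).2; omega) (fun t ht => by
      have h2 := Finset.mem_filter.1 ht
      exact h t (Finset.mem_range.1 h2.1) (by have := h2.2; omega))
  have h2 := odd_prop hx hε hL
  set κ : ℝ := (1 + ε) / ε with hκ
  have hκ1 : 1 ≤ κ := by
    rw [hκ, le_div_iff₀ hε]; linarith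
  set N : ℝ := (Q.card : ℝ) with hN
  set p : ℝ := (L : ℝ) with hp
  have hN0 : 0 ≤ N := Nat.cast_nonneg _
  have hp0 : 0 < p := by
    have : 0 ≤ 41 * κ ^ 2 * N := by positivity
    linarith
  -- everything divided by `κ`
  set q : ℝ := p / κ with hq
  have hq0 : 0 < q := by positivity
  have hpq : p = κ * q := by rw [hq]; field_simp
  have hs : √(p * N) ≤ 0.1562 * q := by
    rw [Real.sqrt_le_left (by positivity)]
    have h3 : p * N ≤ p * (p / (41 * κ ^ 2)) := by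
      apply mul_le_mul_of_nonneg_left _ hp0.le
      rw [le_div_iff₀ (by positivity)]; linarith
    have h4 : p * (p / (41 * κ ^ 2)) = q ^ 2 / 41 := by rw [hq]; field_simp
    rw [h4] at h3
    nlinarith [sq_nonneg q]
  have hNq : N ≤ q / 41 := by
    have h3 : 41 * κ ^ 2 * N < κ * q := by rw [← hpq]; exact hcon
    have h4 : 41 * κ * N < q := by
      have h5 : κ * (41 * κ * N) < κ * q := by nlinarith
      exact lt_of_mul_lt_mul_left h5 (by linarith)
    have h6 : 41 * 1 * N ≤ 41 * κ * N := by nlinarith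
    linarith
  have h7 : p / (2 * κ) = q / 2 := by rw [hq]; field_simp
  rw [h7] at h2
  nlinarith

theorem ch_anti' {x : ℤ} (hx : 0 < x) {L : ℕ} {ε : ℝ} (hε : 0 < ε)
    (hL : (1 + ε) * Real.logb 2 x < L)
    (hinj : Set.InjOn (fun i => (T 3 1)^[i] x) (range L : Finset ℕ)) :
    ∃ A : Finset ℤ, (∀ y ∈ A, y % 2 = 1 ∧ ∃ t, t < L ∧ y = (T 3 1)^[t] x) ∧
      (∀ y ∈ A, ∀ z ∈ A, y ∣ z → y = z) ∧ √(L : ℝ) ≤ 12.4 * ((1 + ε) / ε) * A.card := by
  classical
  have hpos := pos_iter x hx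
  set S := (range L).filter fun t => (T 3 1)^[t] x % 2 ≠ 0 with hS
  set F := S.image fun t => (T 3 1)^[t] x with hF
  have hFc : F.card = S.card := by
    apply Finset.card_image_of_injOn
    intro a ha b hb hab
    exact hinj (Finset.mem_coe.2 (Finset.mem_filter.1 (Finset.mem_coe.1 ha)).1)
      (Finset.mem_coe.2 (Finset.mem_filter.1 (Finset.mem_coe.1 hb)).1) hab
  have hFm : ∀ y ∈ F, y % 2 = 1 ∧ 0 < y ∧ ∃ t, t < L ∧ y = (T 3 1)^[t] x := by
    intro y hy
    obtain ⟨t, ht, rfl⟩ := Finset.mem_image.1 hy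
    have h1 := Finset.mem_filter.1 ht
    exact ⟨by have := h1.2; omega, hpos t, t, Finset.mem_range.1 h1.1, rfl⟩
  obtain ⟨A, hA, hA1, hA2⟩ := mirsky F ⌊2.6 * √(L : ℝ) + 3.6⌋₊ (by
    intro y hy z hz h1 h2
    exact Int.dvd_antisymm (hFm y hy).2.1.le (hFm z hz).2.1.le h1 h2) (by
    intro C hC hch
    apply Nat.le_floor
    set S' := S.filter fun t => (T 3 1)^[t] x ∈ C with hS'
    have h1 : C.card ≤ S'.card := by
      have h2 : C ⊆ S'.image fun t => (T 3 1)^[t] x := by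
        intro y hy
        obtain ⟨t, ht, he⟩ := Finset.mem_image.1 (hC hy)
        exact Finset.mem_image.2 ⟨t, Finset.mem_filter.2 ⟨ht, by rw [he]; exact hy⟩, he⟩
      exact (Finset.card_le_card h2).trans Finset.card_image_le
    have h2 := ch_chain hx hinj S' (fun t ht =>
        (Finset.mem_filter.1 (Finset.mem_filter.1 ht).1).1) (fun t ht => by
        have := (Finset.mem_filter.1 (Finset.mem_filter.1 ht).1).2; omega)
      (fun s hs t ht => hch _ (Finset.mem_filter.1 hs).2 _ (Finset.mem_filter.1 ht).2)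
    have h3 : (C.card : ℝ) ≤ S'.card := by exact_mod_cast h1
    exact h3.trans h2)
  refine ⟨A, fun y hy => ⟨(hFm y (hA hy)).1, (hFm y (hA hy)).2.2⟩, hA1, ?_⟩
  have hxR : (1 : ℝ) ≤ x := by exact_mod_cast hx
  have hlx0 : 0 ≤ Real.logb 2 x := Real.logb_nonneg (by norm_num) hxR
  have hL0 : (0 : ℝ) < L := by
    have : 0 ≤ (1 + ε) * Real.logb 2 x := by positivity
    linarith
  have hL1 : (1 : ℝ) ≤ L := by
    have : 0 < L := by exact_mod_cast hL0
    exact_mod_cast this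
  have hs1 : 1 ≤ √(L : ℝ) := Real.one_le_sqrt.2 hL1
  have h2 : (F.card : ℝ) ≤ (⌊2.6 * √(L : ℝ) + 3.6⌋₊ : ℝ) * A.card := by exact_mod_cast hA2
  have h3 : (⌊2.6 * √(L : ℝ) + 3.6⌋₊ : ℝ) ≤ 2.6 * √(L : ℝ) + 3.6 := Nat.floor_le (by positivity)
  have hA0 : (0 : ℝ) ≤ A.card := Nat.cast_nonneg _
  have h4 : (F.card : ℝ) ≤ 6.2 * √(L : ℝ) * A.card := by
    refine h2.trans (mul_le_mul_of_nonneg_right ?_ hA0)
    linarith
  have h5 := odd_prop hx hε hL
  rw [← hS, ← hFc] at h5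
  set κ : ℝ := (1 + ε) / ε with hκ
  have hκ1 : 1 ≤ κ := by
    rw [hκ, le_div_iff₀ hε]; linarith
  rw [div_le_iff₀ (by linarith)] at h5
  have hsq : √(L : ℝ) * √(L : ℝ) = L := Real.mul_self_sqrt (Nat.cast_nonneg _)
  have h6 : √(L : ℝ) * √(L : ℝ) ≤ (12.4 * κ * A.card) * √(L : ℝ) := by
    rw [hsq]
    calc (L : ℝ) ≤ F.card * (2 * κ) := h5
      _ ≤ (6.2 * √(L : ℝ) * A.card) * (2 * κ) := mul_le_mul_of_nonneg_right h4 (by linarith)
      _ = _ := by ring
  exact le_of_mul_le_mul_right h6 (by linarith)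

/-! ### natural numbers -/

/-- divisibility chain of natural numbers -/
def NChain (D : Set ℕ) : Prop := (∀ d ∈ D, 0 < d) ∧ ∀ d ∈ D, ∀ d' ∈ D, d ∣ d' ∨ d' ∣ d

lemma chain_cast {D : Set ℕ} (h : NChain D) : DivChain ((fun d : ℕ => (d : ℤ)) '' D) := by
  constructor
  · rintro _ ⟨d, hd, rfl⟩
    show (0 : ℤ) < (d : ℤ)
    exact_mod_cast h.1 d hd
  · rintro _ ⟨d, hd, rfl⟩ _ ⟨d', hd', rfl⟩
    show (d : ℤ) ∣ (d' : ℤ) ∨ (d' : ℤ) ∣ (d : ℤ)
    rcases h.2 d hd d' hd' with h1 | h1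
    · left; exact_mod_cast h1
    · right; exact_mod_cast h1

/-- all odd terms before time `L` are of the form `s d`, `s ∈ Q`, `d ∈ D` -/
def CovD (f : ℕ → ℕ) (n L : ℕ) (Q : Finset ℕ) (D : Set ℕ) : Prop :=
  ∀ j < L, f^[j] n % 2 = 1 → ∃ s ∈ Q, ∃ d ∈ D, f^[j] n = s * d

theorem nat_mult {n L : ℕ} (hn : 1 ≤ n) {ε : ℝ} (hε : 0 < ε) (Q : Finset ℕ) {D : Set ℕ}
    (hD : NChain D) (hinj : ∀ i < L, ∀ j < L, TN^[i] n = TN^[j] n → i = j)
    (h : CovD TN n L Q D) :
    (L : ℝ) ≤ (1 + ε) * Real.logb 2 n ∨ (L : ℝ) ≤ 41 * ((1 + ε) / ε) ^ 2 * Q.card := by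
  rcases le_or_gt (L : ℝ) ((1 + ε) * Real.logb 2 n) with h1 | h1
  · left; exact h1
  · right
    have h2 := ch_mult' (x := (n : ℤ)) (by exact_mod_cast hn) hε (by exact_mod_cast h1)
      (Q.image (fun s : ℕ => (s : ℤ))) (chain_cast hD) (inj_cast hinj) (by
        intro t ht hodd
        rw [← TN_cast] at hodd ⊢
        obtain ⟨s, hs, d, hd, he⟩ := h t ht (by omega)
        exact ⟨s, Finset.mem_image_of_mem _ hs, d, ⟨d, hd, rfl⟩, by rw [he]; push_cast; rfl⟩)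
    rw [card_cast] at h2
    exact h2

theorem nat_anti {n L : ℕ} (hn : 1 ≤ n) {ε : ℝ} (hε : 0 < ε)
    (hinj : ∀ i < L, ∀ j < L, TN^[i] n = TN^[j] n → i = j) :
    (L : ℝ) ≤ (1 + ε) * Real.logb 2 n ∨
      ∃ A : Finset ℕ, (∀ y ∈ A, y % 2 = 1 ∧ ∃ t < L, y = TN^[t] n) ∧
        (∀ y ∈ A, ∀ z ∈ A, y ∣ z → y = z) ∧ √(L : ℝ) ≤ 12.4 * ((1 + ε) / ε) * A.card := by
  classical
  rcases le_or_gt (L : ℝ) ((1 + ε) * Real.logb 2 n) with h1 | h1
  · left; exact h1
  · right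
    obtain ⟨A, hA, hA1, hA2⟩ := ch_anti' (x := (n : ℤ)) (by exact_mod_cast hn) hε
      (by exact_mod_cast h1) (inj_cast hinj)
    have hpos : ∀ y ∈ A, 0 < y := by
      intro y hy
      obtain ⟨_, t, _, rfl⟩ := hA y hy
      exact pos_iter _ (by exact_mod_cast hn) t
    refine ⟨A.image Int.toNat, ?_, ?_, ?_⟩
    · intro y hy
      obtain ⟨z, hz, rfl⟩ := Finset.mem_image.1 hy
      obtain ⟨h2, t, ht, he⟩ := hA z hz
      have h3 := hpos z hz
      refine ⟨by omega, t, ht, ?_⟩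
      rw [← TN_cast] at he
      omega
    · intro y hy z hz hyz
      obtain ⟨y', hy', rfl⟩ := Finset.mem_image.1 hy
      obtain ⟨z', hz', rfl⟩ := Finset.mem_image.1 hz
      have h2 := hpos y' hy'
      have h3 := hpos z' hz'
      have h4 : y' ∣ z' := by
        have h5 : ((y'.toNat : ℕ) : ℤ) ∣ ((z'.toNat : ℕ) : ℤ) := by exact_mod_cast hyz
        rwa [Int.toNat_of_nonneg h2.le, Int.toNat_of_nonneg h3.le] at h5
      rw [hA1 y' hy' z' hz' h4]
    · rw [Finset.card_image_of_injOn]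
      · exact hA2
      · intro y hy z hz hyz
        have h2 := hpos y (Finset.mem_coe.1 hy)
        have h3 := hpos z (Finset.mem_coe.1 hz)
        have hyz' : y.toNat = z.toNat := hyz
        omega

theorem nat_chain {n L : ℕ} (hn : 1 ≤ n)
    (hinj : ∀ i < L, ∀ j < L, TN^[i] n = TN^[j] n → i = j) (C : Finset ℕ)
    (hC : ∀ y ∈ C, y % 2 = 1 ∧ ∃ t < L, y = TN^[t] n)
    (hch : ∀ y ∈ C, ∀ z ∈ C, y ∣ z ∨ z ∣ y) : (C.card : ℝ) ≤ 2.6 * √(L : ℝ) + 3.6 := by
  classical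
  set S := (range L).filter fun t => TN^[t] n ∈ C with hS
  have h1 : C.card ≤ S.card := by
    have h2 : C ⊆ S.image fun t => TN^[t] n := by
      intro y hy
      obtain ⟨_, t, ht, he⟩ := hC y hy
      exact Finset.mem_image.2 ⟨t, Finset.mem_filter.2 ⟨Finset.mem_range.2 ht, by rw [← he]; exact hy⟩,
        he.symm⟩
    exact (Finset.card_le_card h2).trans Finset.card_image_le
  have h2 := ch_chain (x := (n : ℤ)) (by exact_mod_cast hn) (inj_cast hinj) S
    (Finset.filter_subset _ _) (by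
      intro t ht
      rw [← TN_cast]
      have := (hC _ (Finset.mem_filter.1 ht).2).1
      omega) (by
      intro s hs t ht
      rw [← TN_cast, ← TN_cast]
      rcases hch _ (Finset.mem_filter.1 hs).2 _ (Finset.mem_filter.1 ht).2 with h | h
      · left; exact_mod_cast h
      · right; exact_mod_cast h)
  have h3 : (C.card : ℝ) ≤ S.card := by exact_mod_cast h1
  exact h3.trans h2

/-! ### the Collatz function -/

theorem natC_mult {n k : ℕ} (hn : 1 ≤ n) {ε : ℝ} (hε : 0 < ε) (Q : Finset ℕ) {D : Set ℕ}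
    (hD : NChain D) (hinj : ∀ i < k, ∀ j < k, CN^[i] n = CN^[j] n → i = j)
    (h : CovD CN n k Q D) :
    (k : ℝ) ≤ 2 * (1 + ε) * Real.logb 2 n + 1 ∨
      (k : ℝ) ≤ 82 * ((1 + ε) / ε) ^ 2 * Q.card + 1 := by
  set L := k / 2 with hL
  have hk : (k : ℝ) ≤ 2 * L + 1 := by exact_mod_cast (by omega : k ≤ 2 * L + 1)
  rcases le_or_gt (L : ℝ) ((1 + ε) * Real.logb 2 n) with h1 | h1
  · left; linarith
  · right
    have h2 := ch_mult' (x := (n : ℤ)) (by exact_mod_cast hn) hε (by exact_mod_cast h1)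
      (Q.image (fun s : ℕ => (s : ℤ))) (chain_cast hD)
      (injC fun i hi j hj => hinj i (by omega) j (by omega)) (by
        intro t ht hodd
        rw [← tim_spec] at hodd ⊢
        obtain ⟨s, hs, d, hd, he⟩ := h (tim n t) (by have := tim_le n t; omega) (by omega)
        exact ⟨s, Finset.mem_image_of_mem _ hs, d, ⟨d, hd, rfl⟩, by rw [he]; push_cast; rfl⟩)
    rw [card_cast] at h2
    linarith

theorem natC_anti {n k : ℕ} (hn : 1 ≤ n) {ε : ℝ} (hε : 0 < ε)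
    (hinj : ∀ i < k, ∀ j < k, CN^[i] n = CN^[j] n → i = j) :
    (k : ℝ) ≤ 2 * (1 + ε) * Real.logb 2 n + 1 ∨
      ∃ A : Finset ℕ, (∀ y ∈ A, y % 2 = 1 ∧ ∃ t < k, y = CN^[t] n) ∧
        (∀ y ∈ A, ∀ z ∈ A, y ∣ z → y = z) ∧
        √(((k : ℝ) - 1) / 2) ≤ 12.4 * ((1 + ε) / ε) * A.card := by
  classical
  set L := k / 2 with hL
  have hk : (k : ℝ) ≤ 2 * L + 1 := by exact_mod_cast (by omega : k ≤ 2 * L + 1)
  rcases le_or_gt (L : ℝ) ((1 + ε) * Real.logb 2 n) with h1 | h1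
  · left; linarith
  · right
    obtain ⟨A, hA, hA1, hA2⟩ := ch_anti' (x := (n : ℤ)) (by exact_mod_cast hn) hε
      (by exact_mod_cast h1) (injC fun i hi j hj => hinj i (by omega) j (by omega))
    have hpos : ∀ y ∈ A, 0 < y := by
      intro y hy
      obtain ⟨_, t, _, rfl⟩ := hA y hy
      exact pos_iter _ (by exact_mod_cast hn) t
    refine ⟨A.image Int.toNat, ?_, ?_, ?_⟩
    · intro y hy
      obtain ⟨z, hz, rfl⟩ := Finset.mem_image.1 hy
      obtain ⟨h2, t, ht, he⟩ := hA z hz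
      have h3 := hpos z hz
      refine ⟨by omega, tim n t, by have := tim_le n t; omega, ?_⟩
      rw [← tim_spec] at he
      omega
    · intro y hy z hz hyz
      obtain ⟨y', hy', rfl⟩ := Finset.mem_image.1 hy
      obtain ⟨z', hz', rfl⟩ := Finset.mem_image.1 hz
      have h2 := hpos y' hy'
      have h3 := hpos z' hz'
      have h4 : y' ∣ z' := by
        have h5 : ((y'.toNat : ℕ) : ℤ) ∣ ((z'.toNat : ℕ) : ℤ) := by exact_mod_cast hyz
        rwa [Int.toNat_of_nonneg h2.le, Int.toNat_of_nonneg h3.le] at h5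
      rw [hA1 y' hy' z' hz' h4]
    · have e : ((A.image Int.toNat).card : ℝ) = A.card := by
        rw [Finset.card_image_of_injOn]
        intro y hy z hz hyz
        have h2 := hpos y (Finset.mem_coe.1 hy)
        have h3 := hpos z (Finset.mem_coe.1 hz)
        have hyz' : y.toNat = z.toNat := hyz
        omega
      rw [e]
      refine le_trans (Real.sqrt_le_sqrt ?_) hA2
      linarith

end Pool.Agent.V5helper5.CO
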